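import Pool.Agent.Lib.MP_a25055_ag.All3

open MvPolynomial Pool.Agent.Lib.MP_a25055_ag

namespace Pool.Agent.Results.MP_a25055_ag.Full

/-- For every cubic surface, GIT stability and asymptotic Chow stability agree, in the stable
(`s = 0`), polystable (`s = 1`) and semistable (`s = 2`) sense. -/
theorem result (s : Fin 3) (f : MvPolynomial (Fin 4) ℂ) (hf : f.IsHomogeneous 3) (h0 : f ≠ 0) :
    Git s (rename (Prod.mk (0 : Fin 1)) f) ↔ ∃ k0 : ℕ, ∀ k ≥ k0, ChowAt s f k :=
  main_of st_inv st_null st_bc st_g2 st_sb st_t2 st_d1 st_s3a st_s3b st_s3c st_cl st_a1 st_un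
    st_stab s f hf h0

end Pool.Agent.Results.MP_a25055_ag.Full
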